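import Pool.Agent.H73.CN6

set_option autoImplicit false

namespace Pool.Agent.Results.MP_216434_al.Counter

/-- number of normal subgroups of finite index at most `n` -/
noncomputable def normalCount (Γ : Type) [Group Γ] (n : ℕ) : ℕ :=
  Set.ncard {N : Subgroup Γ | N.Normal ∧ N.index ≠ 0 ∧ N.index ≤ n}

/-- number of characteristic subgroups of finite index at most `n` -/
noncomputable def charCount (Γ : Type) [Group Γ] (n : ℕ) : ℕ :=
  Set.ncard {N : Subgroup Γ | N.Characteristic ∧ N.index ≠ 0 ∧ N.index ≤ n}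

/-- `g` has growth type `f` -/
def HasGrowthType (g : ℕ → ℕ) (f : ℕ → ℝ) : Prop :=
  ∃ a b : ℝ, 0 < a ∧ 0 < b ∧ (∀ n : ℕ, 1 ≤ n → (g n : ℝ) ≤ f n ^ a) ∧
    ∃ᶠ n : ℕ in Filter.atTop, f n ^ b ≤ (g n : ℝ)

theorem result : ∃ (Γ : Type) (_ : Group Γ), Group.FG Γ ∧
    Finite (MulAut Γ ⧸ (MulAut.conj : Γ →* MulAut Γ).range) ∧
    ¬ ∃ f : ℕ → ℝ, (∀ n, 0 ≤ f n) ∧
      HasGrowthType (charCount Γ) f ∧ HasGrowthType (normalCount Γ) f := by
  obtain ⟨Γ, _, h1, h2, h3⟩ := Pool.Agent.H73.CN.main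
  refine ⟨Γ, inferInstance, h1, h2, ?_⟩
  rintro ⟨f, hf, ⟨_, b, _, hb, _, hl⟩, ⟨a, _, ha, _, hu, _⟩⟩
  exact h3 f a b hf ha hb hu hl

end Pool.Agent.Results.MP_216434_al.Counter
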